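import Mathlib
import Pool.Agent.W926.PS.Stm

/-! Numerics of part U. -/

set_option autoImplicit false

namespace Pool.Agent.W563.PS.Numu

lemma sq_le (t : ℕ) : t ^ 2 ≤ 4 * 2 ^ t := by
  induction t with
  | zero => norm_num
  | succ t ih =>
    have h1 : t < 2 ^ t := Nat.lt_two_pow_self
    rw [pow_succ 2 t]
    nlinarith

lemma log_bd (A y : ℕ) (hy : y ≠ 0) : 8 * (A * Nat.log 2 y) ≤ 64 * A ^ 2 + y := by
  have h1 := sq_le (Nat.log 2 y)
  have h2 := Nat.pow_log_le_self 2 hy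
  have h3 : (Nat.log 2 y) ^ 2 ≤ 4 * y := h1.trans (Nat.mul_le_mul_left 4 h2)
  set t := Nat.log 2 y
  zify at h3 ⊢
  nlinarith [sq_nonneg ((t : ℤ) - 16 * A)]

theorem numu : W926.PS.S_NUMU := by
  intro C K
  obtain ⟨E, hE⟩ : ∃ E, E = K * (C + 1) := ⟨_, rfl⟩
  obtain ⟨r, hr⟩ : ∃ r, r = 8 * E + 1 := ⟨_, rfl⟩
  obtain ⟨κ, hκ⟩ : ∃ κ, κ = r * (r + 1) := ⟨_, rfl⟩
  obtain ⟨A, hA⟩ : ∃ A, A = K * (C * (r + 1) * (r + κ + 1)) := ⟨_, rfl⟩
  obtain ⟨c, hc⟩ : ∃ c, c = 16 * E + 8 * (K * κ) + 64 * A ^ 2 + 2 * r + 8 * A := ⟨_, rfl⟩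
  have hr1 : 1 ≤ r := by omega
  have hκ0 : 0 < κ := by rw [hκ]; positivity
  refine ⟨r, κ, 2 ^ c, hκ0, fun n hn => ?_⟩
  have hn0 : n ≠ 0 := by
    have : 0 < 2 ^ c := by positivity
    omega
  set L := Nat.log 2 n with hL
  have hLc : c ≤ L := by
    rw [hL]
    exact Nat.le_log_of_pow_le (by norm_num) hn
  obtain ⟨Q, hQ⟩ : ∃ Q, Q = L / r := ⟨_, rfl⟩
  have hQ1 : r * Q ≤ L := by rw [hQ]; exact Nat.mul_div_le L r
  have hQ2 : L < r * Q + r := by
    have := Nat.div_add_mod L r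
    have h2 := Nat.mod_lt L (show 0 < r by omega)
    rw [hQ]
    omega
  refine ⟨Q + 1, ?_, ?_⟩
  · have h1 : n < 2 ^ (L + 1) := Nat.lt_pow_succ_log_self (by norm_num) n
    refine h1.le.trans (Nat.pow_le_pow_right (by norm_num) ?_)
    rw [mul_add, mul_one]
    omega
  · have hy : r * (Q + 1 + 1) ≠ 0 := by positivity
    have h1 := log_bd A (r * (Q + 1 + 1)) hy
    set t := Nat.log 2 (r * (Q + 1 + 1)) with ht
    have h2 : κ * ((Q + 1) / κ) ≤ Q + 1 := Nat.mul_div_le _ _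
    have h3 : r * (r + 1) * ((Q + 1) / κ + 1) ≤ Q + 1 + κ := by
      rw [← hκ, mul_add, mul_one]
      omega
    have h4 : K * (C * (Q + 1 + 1) + C * (r + 1) * (r + κ + 1) * (t + 1) +
        r * (r + 1) * ((Q + 1) / κ + 1)) ≤
        K * (C * (Q + 1 + 1) + C * (r + 1) * (r + κ + 1) * (t + 1) + (Q + 1 + κ)) :=
      Nat.mul_le_mul_left K (Nat.add_le_add_left h3 _)
    refine h4.trans ?_
    have h5 : K * (C * (Q + 1 + 1) + C * (r + 1) * (r + κ + 1) * (t + 1) + (Q + 1 + κ))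
        ≤ E * (Q + 2) + A * (t + 1) + K * κ := by
      have e1 : E * (Q + 2) + A * (t + 1) + K * κ =
          K * (C * (Q + 1 + 1) + C * (r + 1) * (r + κ + 1) * (t + 1) + (Q + 1 + κ)) + K := by
        rw [hE, hA]; ring
      rw [e1]
      exact Nat.le_add_right _ _
    refine h5.trans ?_
    have h6 : 8 * (E * Q) ≤ L := by
      have : 8 * (E * Q) + Q = r * Q := by rw [hr]; ring
      omega
    have h7 : r * (Q + 1 + 1) ≤ L + 2 * r := by
      have : r * (Q + 1 + 1) = r * Q + 2 * r := by ring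
      omega
    have h8 : E * (Q + 2) = E * Q + 2 * E := by ring
    have h9 : A * (t + 1) = A * t + A := by ring
    rw [h8, h9]
    omega

end Pool.Agent.W563.PS.Numu
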