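import Mathlib
import Pool.Agent.W926.PS.Stm

/-! Ramsey for triples of pairs. -/

set_option autoImplicit false

namespace Pool.Agent.W563.PS.Ram

lemma aux (γ : Type) [Fintype γ] [DecidableEq γ] : ∀ c : ℕ, ∃ N : ℕ, ∀ (M : ℕ)
    (χ : Fin M → Fin M → γ) (A : Finset γ) (S : Finset (Fin M)), A.card ≤ c → N ≤ S.card →
    (∀ i ∈ S, ∀ j ∈ S, i < j → χ i j ∈ A) →
    ∃ i j k : Fin M, i < j ∧ j < k ∧ χ i j = χ i k ∧ χ i k = χ j k := by
  intro c
  induction c with
  | zero =>
    refine ⟨2, fun M χ A S hA hS h => ?_⟩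
    obtain ⟨a, ha, b, hb, hab⟩ := Finset.one_lt_card.1 (show 1 < S.card by omega)
    have hA0 : A = ∅ := Finset.card_eq_zero.1 (by omega)
    subst hA0
    rcases lt_or_gt_of_ne hab with h1 | h1
    · exact absurd (h a ha b hb h1) (Finset.notMem_empty _)
    · exact absurd (h b hb a ha h1) (Finset.notMem_empty _)
  | succ c ih =>
    obtain ⟨N, hN⟩ := ih
    refine ⟨Fintype.card γ * N + 2, fun M χ A S hA hS h => ?_⟩
    have hne : S.Nonempty := Finset.card_pos.1 (by omega)
    set i := S.min' hne with hi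
    have hiS : i ∈ S := S.min'_mem hne
    have hcard : (S.erase i).card = S.card - 1 := Finset.card_erase_of_mem hiS
    obtain ⟨y, -, hy⟩ := Finset.exists_lt_card_fiber_of_mul_lt_card_of_maps_to
      (s := S.erase i) (t := (Finset.univ : Finset γ)) (f := fun x => χ i x) (n := N)
      (fun _ _ => Finset.mem_univ _) (by rw [Finset.card_univ, hcard]; omega)
    set T := (S.erase i).filter (fun x => χ i x = y) with hT
    have hTm : ∀ x ∈ T, x ∈ S ∧ i < x ∧ χ i x = y := by
      intro x hx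
      rw [hT, Finset.mem_filter, Finset.mem_erase] at hx
      exact ⟨hx.1.2, lt_of_le_of_ne (S.min'_le x hx.1.2) (Ne.symm hx.1.1), hx.2⟩
    by_cases hex : ∃ j ∈ T, ∃ k ∈ T, j < k ∧ χ j k = y
    · obtain ⟨j, hj, k, hk, hjk, hc⟩ := hex
      have h1 := hTm j hj
      have h2 := hTm k hk
      exact ⟨i, j, k, h1.2.1, hjk, by rw [h1.2.2, h2.2.2], by rw [h2.2.2, hc]⟩
    · push Not at hex
      obtain ⟨x, hx⟩ := Finset.card_pos.1 (show 0 < T.card by omega)
      have hyA : y ∈ A := by
        have h1 := hTm x hx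
        rw [← h1.2.2]
        exact h i hiS x h1.1 h1.2.1
      refine hN M χ (A.erase y) T ?_ hy.le ?_
      · rw [Finset.card_erase_of_mem hyA]; omega
      · intro j hj k hk hjk
        rw [Finset.mem_erase]
        exact ⟨hex j hj k hk hjk, h j (hTm j hj).1 k (hTm k hk).1 hjk⟩

theorem ram : W926.PS.S_RAM := by
  classical
  intro γ _
  obtain ⟨N, hN⟩ := aux γ (Fintype.card γ)
  refine ⟨N, fun χ => hN N χ Finset.univ Finset.univ ?_ ?_ ?_⟩
  · rw [Finset.card_univ]
  · rw [Finset.card_univ, Fintype.card_fin]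
  · intro i _ j _ _
    exact Finset.mem_univ _

end Pool.Agent.W563.PS.Ram
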