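import Pool.Agent.W606.PS.Stm

/-!
# The levels around a deep vertex
-/

set_option autoImplicit false

open Set Relation

namespace Pool.Agent.W563.PS.Lev

open Pool.Agent.W606.PS

variable {V : Type}

lemma conn_of_con {G : SimpleGraph V} (h : Con G univ) : G.Connected := by
  obtain ⟨⟨v, -⟩, h2⟩ := h
  have : Nonempty V := ⟨v⟩
  refine ⟨fun a b => ?_⟩
  have h3 := h2 a (mem_univ a) b (mem_univ b)
  induction h3 with
  | refl => exact SimpleGraph.Reachable.refl a
  | tail _ e ih => exact ih.trans e.1.reachable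

lemma dist_adj {G : SimpleGraph V} (h : G.Connected) {u v : V} (e : G.Adj u v) (z : V) :
    G.dist u z ≤ G.dist v z + 1 := by
  have h1 := h.dist_triangle (u := u) (v := v) (w := z)
  rw [SimpleGraph.dist_eq_one_iff_adj.2 e] at h1
  omega

lemma walk_out {G : SimpleGraph V} (hG : G.Connected) {Om B : Set V} {j : ℕ}
    (hB : IsComp G {v | ∀ z, z ∉ Om → j < G.dist v z} B) :
    ∀ (n : ℕ) (y : V), y ∉ B → (∃ z, z ∉ Om ∧ G.dist y z = n) → (∀ z, z ∉ Om → n ≤ G.dist y z) →
      ∃ R : Set V, y ∈ R ∧ R ⊆ Bᶜ ∧ Con G R ∧ (R ∩ Omᶜ).Nonempty := by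
  intro n
  induction n with
  | zero =>
    intro y hy hz _
    obtain ⟨z, hz, hd⟩ := hz
    have h1 : y = z := (hG.dist_eq_zero_iff).1 hd
    subst h1
    exact ⟨{y}, rfl, by simpa using hy, con_singleton G y, ⟨y, rfl, hz⟩⟩
  | succ n ih =>
    intro y hy hz hmin
    obtain ⟨z, hz, hd⟩ := hz
    obtain ⟨p, hp⟩ := hG.exists_walk_length_eq_dist y z
    rw [hd] at hp
    obtain ⟨y', e, hy'⟩ : ∃ y', G.Adj y y' ∧ G.dist y' z = n := by
      cases p with
      | nil => simp at hp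
      | @cons _ y' _ e q =>
        refine ⟨y', e, ?_⟩
        rw [SimpleGraph.Walk.length_cons] at hp
        have h1 := SimpleGraph.dist_le q
        have h2 := dist_adj hG e z
        omega
    have hmin' : ∀ w, w ∉ Om → n ≤ G.dist y' w := by
      intro w hw
      have h1 := hmin w hw
      have h2 := dist_adj hG e w
      omega
    have hy'B : y' ∉ B := by
      intro h
      have h1 := hB.1 h z hz
      apply hy
      refine hB.2.2 y' h y (fun w hw => ?_) e.symm
      have h2 := hmin w hw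
      omega
    obtain ⟨R, h1, h2, h3, h4⟩ := ih y' hy'B ⟨z, hz, hy'⟩ hmin'
    refine ⟨R ∪ {y}, Or.inr rfl, ?_, h3.union_tch (con_singleton G y) ⟨y', h1, y, rfl, e.symm⟩, ?_⟩
    · rintro v (hv | hv)
      · exact h2 hv
      · rw [mem_singleton_iff] at hv
        subst hv
        exact hy
    · obtain ⟨w, hw, hw'⟩ := h4
      exact ⟨w, Or.inl hw, hw'⟩

lemma con_compl {G : SimpleGraph V} (hG : G.Connected) {Om B : Set V} {j : ℕ}
    (hB : IsComp G {v | ∀ z, z ∉ Om → j < G.dist v z} B) (hO : Con G Omᶜ) : Con G Bᶜ := by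
  classical
  have hsub : Omᶜ ⊆ Bᶜ := by
    intro z hz hzB
    have h1 := hB.1 hzB z hz
    rw [SimpleGraph.dist_self] at h1
    omega
  refine con_of_cover hO hsub fun y hy => ?_
  have hex : ∃ n, ∃ z, z ∉ Om ∧ G.dist y z = n := by
    obtain ⟨z, hz⟩ := hO.1
    exact ⟨_, z, hz, rfl⟩
  refine walk_out hG hB (Nat.find hex) y hy (Nat.find_spec hex) fun z hz => ?_
  exact Nat.find_min' hex ⟨z, hz, rfl⟩

theorem main : S_LEV := by
  intro V _ G hG0 hN Om x J hO hx
  have hG := conn_of_con hG0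
  have hex : ∀ j, ∃ B : Set V, j ≤ J →
      IsComp G {v | ∀ z, z ∉ Om → j < G.dist v z} B ∧ x ∈ B := by
    intro j
    by_cases hj : j ≤ J
    · obtain ⟨B, h1, h2⟩ := exists_comp G (S := {v | ∀ z, z ∉ Om → j < G.dist v z}) (u := x)
        (fun z hz => lt_of_le_of_lt hj (hx z hz))
      exact ⟨B, fun _ => ⟨h1, h2⟩⟩
    · exact ⟨∅, fun h => absurd h hj⟩
  choose B hB using hex
  refine ⟨B, fun j hj => ?_⟩
  obtain ⟨hc, hxB⟩ := hB j hj
  have hcc : Con G (B j)ᶜ := con_compl hG hc hO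
  refine ⟨hxB, hc, hcc, hN _ hc.2.1 hcc, ?_, ?_⟩
  · rintro y ⟨hyB, v, hv, e⟩
    have h1 : ∀ z, z ∉ Om → j ≤ G.dist y z := by
      intro z hz
      have h2 : j < G.dist v z := hc.1 hv z hz
      have h3 := dist_adj hG e z
      omega
    refine ⟨h1, ?_⟩
    by_contra hcon
    push Not at hcon
    refine hyB (hc.2.2 v hv y (fun z hz => ?_) e)
    exact lt_of_le_of_ne (h1 z hz) (Ne.symm (hcon z hz))
  · intro j' hj' hjj
    obtain ⟨hc', hxB'⟩ := hB j' hj'
    have hs : B j' ⊆ B j :=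
      hc.sub_of_con hc'.2.1 (fun v hv z hz => hjj.trans (hc'.1 hv z hz)) ⟨x, hxB', hxB⟩
    rintro y (hy | ⟨hyB, v, hv, e⟩)
    · exact hs hy
    · refine hc.2.2 v (hs hv) y (fun z hz => ?_) e
      have h2 : j' < G.dist v z := hc'.1 hv z hz
      have h3 := dist_adj hG e z
      omega

end Pool.Agent.W563.PS.Lev
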