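import Pool.Agent.W787.PS.StmB

/-!
# Truncation gives an `L¹` bound
-/

open MeasureTheory Set Metric Filter Topology
open scoped ContDiff

noncomputable section

namespace Pool.Agent.W563.PS.Tru

open Pool.Agent.W787.PS

/-! ### The truncation functions -/

/-- the derivative of the truncation -/
def ph (t : ℝ) : ℝ := (1 + t ^ 2) ^ (-(3 / 8 : ℝ))

lemma base_pos (t : ℝ) : 0 < 1 + t ^ 2 := by positivity

lemma ph_pos (t : ℝ) : 0 < ph t := Real.rpow_pos_of_pos (base_pos t) _

lemma ph_le_one (t : ℝ) : ph t ≤ 1 := by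
  rw [ph]
  refine Real.rpow_le_one_of_one_le_of_nonpos ?_ (by norm_num)
  nlinarith [sq_nonneg t]

lemma ph_smooth : ContDiff ℝ ∞ ph := by
  unfold ph
  refine ContDiff.rpow_const_of_ne (by fun_prop) fun t => (base_pos t).ne'

lemma ph_cont : Continuous ph := ph_smooth.continuous

lemma ph_even (t : ℝ) : ph (-t) = ph t := by
  rw [ph, ph, neg_sq]

lemma ph_anti {s t : ℝ} (ht : 0 ≤ t) (hts : t ≤ s) : ph s ≤ ph t := by
  rw [ph, ph]
  refine Real.rpow_le_rpow_of_nonpos (base_pos t) ?_ (by norm_num)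
  have := pow_le_pow_left₀ ht hts 2
  linarith

lemma ph_pow8 (t : ℝ) : ph t ^ 8 = ((1 + t ^ 2) ^ 3)⁻¹ := by
  have h1 : -(3 / 8 : ℝ) * (8 : ℕ) = -((3 : ℕ) : ℝ) := by norm_num
  rw [ph, ← Real.rpow_mul_natCast (base_pos t).le, h1, Real.rpow_neg (base_pos t).le,
    Real.rpow_natCast]

lemma ph_sq_int : Integrable fun t : ℝ => ph t ^ 2 := by
  have h := integrable_rpow_neg_one_add_norm_sq (E := ℝ) (μ := volume) (r := 3 / 2)
    (by rw [Module.finrank_self]; norm_num)
  refine h.congr (Eventually.of_forall fun t => ?_)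
  simp only [Real.norm_eq_abs, sq_abs]
  have h1 : -(3 / 8 : ℝ) * (2 : ℕ) = -(3 / 2) / 2 := by norm_num
  rw [ph, ← Real.rpow_mul_natCast (base_pos t).le, h1]

/-- primitive -/
def pr (f : ℝ → ℝ) (s : ℝ) : ℝ := ∫ t in (0 : ℝ)..s, f t

lemma pr_deriv {f : ℝ → ℝ} (hf : Continuous f) (s : ℝ) : HasDerivAt (pr f) (f s) s :=
  intervalIntegral.integral_hasDerivAt_right (hf.intervalIntegrable _ _)
    hf.aestronglyMeasurable.stronglyMeasurableAtFilter hf.continuousAt

lemma pr_smooth {f : ℝ → ℝ} (hf : ContDiff ℝ ∞ f) : ContDiff ℝ ∞ (pr f) := by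
  rw [contDiff_infty_iff_deriv]
  refine ⟨fun s => (pr_deriv hf.continuous s).differentiableAt, ?_⟩
  have h1 : deriv (pr f) = f := funext fun s => (pr_deriv hf.continuous s).deriv
  rw [h1]
  exact hf

/-- the truncation -/
def Ph : ℝ → ℝ := pr ph

/-- the test function -/
def Ps : ℝ → ℝ := pr fun t => ph t ^ 2

lemma Ph_neg (s : ℝ) : Ph (-s) = -Ph s := by
  rw [Ph, pr, pr]
  have h1 := intervalIntegral.integral_comp_neg (a := 0) (b := s) ph
  simp only [ph_even, neg_zero] at h1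
  rw [h1, intervalIntegral.integral_symm]

lemma Ph_nonneg {s : ℝ} (hs : 0 ≤ s) : 0 ≤ Ph s :=
  intervalIntegral.integral_nonneg hs fun t _ => (ph_pos t).le

lemma Ph_nonpos {s : ℝ} (hs : s ≤ 0) : Ph s ≤ 0 := by
  have h1 := Ph_nonneg (s := -s) (by linarith)
  rw [Ph_neg] at h1
  linarith

lemma Ph_ge {s : ℝ} (hs : 0 ≤ s) : s * ph s ≤ Ph s := by
  have h1 : ∫ _ in (0 : ℝ)..s, ph s = s * ph s := by simp
  rw [← h1, Ph, pr]
  refine intervalIntegral.integral_mono_on hs (by simp) (ph_cont.intervalIntegrable _ _) ?_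
  intro t ht
  exact ph_anti ht.1 ht.2

lemma growth_pos {s : ℝ} (hs : 0 ≤ s) : s ≤ 1 + 3 * Ph s ^ 4 := by
  rcases le_total s 1 with h | h
  · have : 0 ≤ Ph s ^ 4 := by positivity
    linarith
  · have h1 : 0 ≤ s * ph s := mul_nonneg hs (ph_pos s).le
    have h2 : (s * ph s) ^ 4 ≤ Ph s ^ 4 := pow_le_pow_left₀ h1 (Ph_ge hs) 4
    have h3 : s ≤ 3 * (s * ph s) ^ 4 := by
      have h4 : s ^ 2 ≤ (3 * (s * ph s) ^ 4) ^ 2 := by
        have h5 : (3 * (s * ph s) ^ 4) ^ 2 = 9 * s ^ 8 * ph s ^ 8 := by ring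
        rw [h5, ph_pow8, ← div_eq_mul_inv, le_div_iff₀ (by positivity)]
        have h6 : 1 ≤ s ^ 2 := by nlinarith
        have h7 : (1 + s ^ 2) ^ 3 ≤ (2 * s ^ 2) ^ 3 :=
          pow_le_pow_left₀ (by positivity) (by linarith) 3
        calc s ^ 2 * (1 + s ^ 2) ^ 3 ≤ s ^ 2 * (2 * s ^ 2) ^ 3 :=
              mul_le_mul_of_nonneg_left h7 (by positivity)
          _ = 8 * s ^ 8 := by ring
          _ ≤ 9 * s ^ 8 := by
              have : 0 ≤ s ^ 8 := by positivity
              linarith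
      exact le_of_sq_le_sq h4 (by positivity)
    linarith

lemma growth (s : ℝ) : |s| ≤ 1 + 3 * Ph s ^ 4 := by
  rcases le_total 0 s with h | h
  · rw [abs_of_nonneg h]
    exact growth_pos h
  · rw [abs_of_nonpos h]
    have h1 := growth_pos (s := -s) (by linarith)
    rw [Ph_neg] at h1
    have h2 : (-Ph s) ^ 4 = Ph s ^ 4 := by ring
    rwa [h2] at h1

lemma Ps_bd (s : ℝ) : |Ps s| ≤ ∫ t, ph t ^ 2 := by
  rw [Ps, pr, ← Real.norm_eq_abs]
  refine intervalIntegral.norm_integral_le_integral_norm_uIoc.trans ?_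
  have h1 : ∀ t : ℝ, ‖ph t ^ 2‖ = ph t ^ 2 := fun t => by
    rw [Real.norm_eq_abs, abs_of_nonneg (by positivity)]
  simp only [h1]
  exact setIntegral_le_integral ph_sq_int (Eventually.of_forall fun t => by positivity)

/-! ### The estimate -/

theorem tru (h1 : S_SMO) (h2 : S_DIR) (h3 : S_POIM) (h4 : S_L4M) : S_TRU := by
  intro M _ _ _ _ _ _ X h lam hh hpos hlam
  obtain ⟨sC, sK, -, sSub, sMul, -, sComp, gSymm, -, gSub, -, gC, gNN, gComp⟩ := h1 M X
  obtain ⟨dI, -, -, -, -, -, -, dNN⟩ := h2 M X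
  obtain ⟨C1, hC1, poi⟩ := h3 M X
  obtain ⟨C2, hC2, l4⟩ := h4 M X
  have : IsProbabilityMeasure X.vol := ⟨X.vol_univ⟩
  have hint : ∀ f : M → ℝ, Continuous f → Integrable f X.vol := fun f hf =>
    hf.integrable_of_hasCompactSupport (HasCompactSupport.of_compactSpace f)
  set K : ℝ := ∫ t, ph t ^ 2 with hK
  have hK0 : 0 ≤ K := (abs_nonneg _).trans (Ps_bd 0)
  set D0 : ℝ := 2 * K + 4 * lam * K + 1 with hD0
  have hD0p : 0 < D0 := by positivity
  refine ⟨1 + 3 * (C2 * ((C1 + 1) * D0) ^ 2), by positivity, fun u ε hε hε1 hu => ?_⟩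
  have uc : Continuous u := sC u hu.smooth
  -- the choice of the constant
  obtain ⟨B, hB⟩ := isCompact_univ.exists_bound_of_continuousOn uc.continuousOn
  have hPc : Continuous Ph := (pr_smooth ph_smooth).continuous
  have hPl : ∀ a b : ℝ, |Ph a - Ph b| ≤ |a - b| := by
    intro a b
    have e1 : Ph a - Ph b = ∫ t in b..a, ph t := by
      rw [Ph, pr, pr, intervalIntegral.integral_interval_sub_left (ph_cont.intervalIntegrable _ _)
        (ph_cont.intervalIntegrable _ _)]
    rw [e1, ← Real.norm_eq_abs]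
    have e2 := intervalIntegral.norm_integral_le_of_norm_le_const (a := b) (b := a) (C := 1)
      (f := ph) (fun t _ => by
        rw [Real.norm_eq_abs, abs_of_pos (ph_pos t)]
        exact ph_le_one t)
    rwa [one_mul] at e2
  have hPi : ∀ a : ℝ, Integrable (fun x => Ph (u x - a)) X.vol := fun a =>
    hint _ (hPc.comp (uc.sub continuous_const))
  have hJc : Continuous fun c : ℝ => ∫ x, Ph (u x - c) ∂X.vol := by
    refine (LipschitzWith.of_dist_le_mul (K := 1) fun a b => ?_).continuous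
    rw [Real.dist_eq, Real.dist_eq, NNReal.coe_one, one_mul,
      ← integral_sub (hPi a) (hPi b), ← Real.norm_eq_abs]
    refine (norm_integral_le_of_norm_le_const (C := |a - b|) (Eventually.of_forall fun x => ?_)).trans
      ?_
    · rw [Real.norm_eq_abs]
      refine (hPl _ _).trans ?_
      have e : u x - a - (u x - b) = b - a := by ring
      rw [e, abs_sub_comm]
    · simp
  obtain ⟨c, hc⟩ : ∃ c : ℝ, ∫ x, Ph (u x - c) ∂X.vol = 0 := by
    refine mem_range_of_exists_le_of_exists_ge hJc ⟨B, ?_⟩ ⟨-B, ?_⟩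
    · refine integral_nonpos fun x => Ph_nonpos ?_
      have := (abs_le.1 (hB x (mem_univ x))).2
      linarith
    · refine integral_nonneg fun x => Ph_nonneg ?_
      have := (abs_le.1 (hB x (mem_univ x))).1
      linarith
  refine ⟨c, ?_⟩
  set U : M → ℝ := fun x => u x - c with hU
  have sU : X.Smooth U := sSub u (fun _ => c) hu.smooth (sK c)
  set z : M → ℝ := Ph ∘ U with hz
  set f : M → ℝ := Ps ∘ U with hf
  have sPh : ContDiff ℝ ∞ Ph := pr_smooth ph_smooth
  have sPs : ContDiff ℝ ∞ Ps := pr_smooth (ph_smooth.pow 2)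
  have sz : X.Smooth z := sComp Ph U sPh sU
  have sf : X.Smooth f := sComp Ps U sPs sU
  have dPh : ∀ s, deriv Ph s = ph s := fun s => (pr_deriv ph_cont s).deriv
  have dPs : ∀ s, deriv Ps s = ph s ^ 2 := fun s => (pr_deriv (ph_cont.pow 2) s).deriv
  have gU : ∀ v x, X.Smooth v → X.gip v U x = X.gip v u x := by
    intro v x hv
    have e := gSub v u (fun _ => c) x hv hu.smooth (sK c)
    rw [gC, sub_zero] at e
    exact e
  have gzz : ∀ x, X.gip z z x = ph (U x) ^ 2 * X.gip u u x := by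
    intro x
    rw [hz, gComp Ph (Ph ∘ U) U x sPh sz sU, dPh, gSymm (Ph ∘ U) U x, gComp Ph U U x sPh sU sU, dPh,
      gU U x sU, gSymm U u x, gU u x hu.smooth]
    ring
  have guf : ∀ x, X.gip u f x = ph (U x) ^ 2 * X.gip u u x := by
    intro x
    rw [hf, gComp Ps u U x sPs hu.smooth sU, dPs, gU u x hu.smooth]
  have gff : ∀ x, X.gip f f x ≤ X.gip z z x := by
    intro x
    rw [gzz, hf, gComp Ps (Ps ∘ U) U x sPs sf sU, dPs, gSymm (Ps ∘ U) U x, gComp Ps U U x sPs sU sU,
      dPs, gU U x sU, gSymm U u x, gU u x hu.smooth]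
    have e1 : ph (U x) ^ 2 ≤ 1 := pow_le_one₀ (ph_pos _).le (ph_le_one _)
    have e2 := gNN u x
    have e3 : 0 ≤ ph (U x) ^ 2 * X.gip u u x := by positivity
    nlinarith
  set Dz : ℝ := X.dir z z with hDz
  have hDz0 : 0 ≤ Dz := dNN z
  have duf : X.dir u f = Dz := by
    rw [hDz, ClosedSurface.dir, ClosedSurface.dir]
    exact integral_congr_ae (Eventually.of_forall fun x => by
      rw [guf, gzz])
  have dff : X.dir f f ≤ Dz := integral_mono (dI f f sf sf) (dI z z sz sz) gff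
  have fbd : ∀ x, |f x| ≤ K := fun x => Ps_bd (U x)
  have hcont : Continuous h := sC h hh
  have fc : Continuous f := sC f sf
  have hf2 : ∫ x, f x ^ 2 ∂X.vol ≤ K ^ 2 := by
    have e := norm_integral_le_of_norm_le_const (μ := X.vol) (f := fun x => f x ^ 2) (C := K ^ 2)
      (Eventually.of_forall fun x => by
        rw [Real.norm_eq_abs, abs_of_nonneg (by positivity), ← sq_abs]
        exact pow_le_pow_left₀ (abs_nonneg _) (fbd x) 2)
    rw [Real.norm_eq_abs] at e
    have e2 := (le_abs_self _).trans e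
    simpa using e2
  have hf1 : |∫ x, f x ∂X.vol| ≤ K := by
    have e := norm_integral_le_of_norm_le_const (μ := X.vol) (f := f) (C := K)
      (Eventually.of_forall fun x => by
        rw [Real.norm_eq_abs]
        exact fbd x)
    rw [Real.norm_eq_abs] at e
    simpa using e
  have hf3 : |∫ x, h x * Real.exp (u x) * f x ∂X.vol| ≤ K := by
    rw [← Real.norm_eq_abs]
    have e := norm_integral_le_integral_norm (μ := X.vol) fun x => h x * Real.exp (u x) * f x
    refine e.trans ?_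
    have e2 : ∫ x, h x * Real.exp (u x) * K ∂X.vol = K := by
      rw [integral_mul_const, hu.norm, one_mul]
    have hce : Continuous fun x => h x * Real.exp (u x) := hcont.mul (Real.continuous_exp.comp uc)
    calc ∫ x, ‖h x * Real.exp (u x) * f x‖ ∂X.vol ≤ ∫ x, h x * Real.exp (u x) * K ∂X.vol := by
          refine integral_mono (hint _ (hce.mul fc).norm) (hint _ (hce.mul continuous_const))
            fun x => ?_
          have e3 : 0 < h x * Real.exp (u x) := mul_pos (hpos x) (Real.exp_pos _)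
          simp only
          rw [norm_mul, Real.norm_eq_abs, Real.norm_eq_abs, abs_of_pos e3]
          exact mul_le_mul_of_nonneg_left (fbd x) e3.le
      _ = K := e2
  have hbd := hu.bd f sf
  rw [duf] at hbd
  have hs0 : 0 ≤ X.h1sq f := by
    rw [ClosedSurface.h1sq]
    have e1 : 0 ≤ ∫ x, f x ^ 2 ∂X.vol := integral_nonneg fun x => by positivity
    have e2 := dNN f
    linarith
  have hsq : Real.sqrt (X.h1sq f) ≤ K + (1 + Dz) / 2 := by
    rw [Real.sqrt_le_left (by positivity)]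
    have e1 : X.h1sq f ≤ K ^ 2 + Dz := by
      rw [ClosedSurface.h1sq]
      linarith
    refine e1.trans ?_
    nlinarith [sq_nonneg (Dz - 1), mul_nonneg hK0 hDz0]
  have hDz1 : Dz ≤ D0 := by
    have e1 : ε * Real.sqrt (X.h1sq f) ≤ K + (1 + Dz) / 2 := by
      have := Real.sqrt_nonneg (X.h1sq f)
      nlinarith
    have e2 := (abs_le.1 (hbd.trans e1)).2
    have e3 := (abs_le.1 hf1).1
    have e4 := (abs_le.1 hf3).2
    have e5 : lam * -K ≤ lam * ∫ x, f x ∂X.vol := mul_le_mul_of_nonneg_left e3 hlam.le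
    have e6 : lam * ∫ x, h x * Real.exp (u x) * f x ∂X.vol ≤ lam * K :=
      mul_le_mul_of_nonneg_left e4 hlam.le
    rw [hD0]
    linarith
  have hzm : ∫ x, z x ∂X.vol = 0 := hc
  have hz2 : ∫ x, z x ^ 2 ∂X.vol ≤ C1 * D0 := by
    have e := poi z sz
    rw [hzm] at e
    simp only [sub_zero] at e
    exact e.trans (mul_le_mul_of_nonneg_left hDz1 hC1.le)
  have hh1 : X.h1sq z ≤ (C1 + 1) * D0 := by
    rw [ClosedSurface.h1sq]
    linarith
  have hh0 : 0 ≤ X.h1sq z := by
    rw [ClosedSurface.h1sq]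
    have e1 : 0 ≤ ∫ x, z x ^ 2 ∂X.vol := integral_nonneg fun x => by positivity
    linarith
  have hz4 : ∫ x, z x ^ 4 ∂X.vol ≤ C2 * ((C1 + 1) * D0) ^ 2 :=
    (l4 z sz).trans (mul_le_mul_of_nonneg_left (pow_le_pow_left₀ hh0 hh1 2) hC2.le)
  have zc : Continuous z := sC z sz
  have Uc : Continuous U := sC U sU
  calc ∫ x, |u x - c| ∂X.vol ≤ ∫ x, (1 + 3 * z x ^ 4) ∂X.vol := by
        refine integral_mono (hint _ Uc.abs)
          (hint _ (continuous_const.add (continuous_const.mul (zc.pow 4)))) fun x => growth (U x)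
    _ = 1 + 3 * ∫ x, z x ^ 4 ∂X.vol := by
        have i1 : Integrable (fun x => 3 * z x ^ 4) X.vol :=
          hint _ (continuous_const.mul (zc.pow 4))
        rw [integral_add (integrable_const _) i1, integral_const_mul]
        simp
    _ ≤ 1 + 3 * (C2 * ((C1 + 1) * D0) ^ 2) := by linarith

end Pool.Agent.W563.PS.Tru

end
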